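import Pool.Agent.P.MP_709c52_lc.Tree

namespace Pool.Agent.P.MP_709c52_lc

open Finset

variable {V : Type} [DecidableEq V] {N : Type*} [PseudoMetricSpace N] (s : V → N)

def Sep (t : ℝ) (X Y : Finset V) : Prop := ∀ u ∈ X, ∀ v ∈ Y, u ≠ v ∧ t ≤ dist (s u) (s v)

noncomputable def Phi (lev : ℝ → ℕ) (j : ℕ) (l : List ℝ) : ℝ :=
  (l.map fun w => 2 * (((j : ℝ) + 1 - lev w) * w)).sum

def Asm (κ t P : ℝ) (A : Finset V) : Prop :=
  ∀ (ext : V → Finset V) (c : V → ℝ), (∀ x, 0 ≤ c x) → (∀ x ∈ A, Sep s t A (ext x)) →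
    (∀ x ∈ A, ∀ y ∈ A, x ≠ y → Sep s t (ext x) (ext y)) →
    (∀ x ∈ A, ∀ Q L, x ∈ Q → Sep s t Q (ext x) → L + c x ≤ (κ + 1) * t → Good s κ Q L x →
      Good s κ (Q ∪ ext x) (L + c x) x) →
    ∀ q ∈ A, P + ∑ x ∈ A, c x ≤ (κ + 1) * t → Good s κ (A ∪ A.biUnion ext) (P + ∑ x ∈ A, c x) q

variable {s}

omit [DecidableEq V] in
lemma Sep.symm {t : ℝ} {X Y : Finset V} (h : Sep s t X Y) : Sep s t Y X :=
  fun u hu v hv => ⟨(h v hv u hu).1.symm, dist_comm (s v) (s u) ▸ (h v hv u hu).2⟩

omit [DecidableEq V] in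
lemma Sep.mono {t : ℝ} {X Y X' Y' : Finset V} (h : Sep s t X Y) (h1 : X' ⊆ X) (h2 : Y' ⊆ Y) :
    Sep s t X' Y' := fun u hu v hv => h u (h1 hu) v (h2 hv)

lemma Sep.union {t : ℝ} {X Y Z : Finset V} (h : Sep s t X Z) (h' : Sep s t Y Z) :
    Sep s t (X ∪ Y) Z := fun u hu v hv => by
  rcases mem_union.1 hu with hu | hu
  exacts [h u hu v hv, h' u hu v hv]

lemma Sep.biUnion {t : ℝ} {X Z : Finset V} {f : V → Finset V} (h : ∀ x ∈ X, Sep s t (f x) Z) :
    Sep s t (X.biUnion f) Z := fun u hu v hv => by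
  obtain ⟨x, hx, hu⟩ := mem_biUnion.1 hu
  exact h x hx u hu v hv

lemma asm_tour {κ t P : ℝ} {A : Finset V} {l : List ℝ} (h : SL s A l) {p : V} (hp : p ∈ A)
    (hg : Good s κ A P p) : Asm s κ t (P + 2 * l.sum) A := by
  intro ext c hc h1 h2 hop q hq hB
  have := h.tour (fun S L x => S ⊆ A ∧ (L ≤ (κ + 1) * t → Good s κ (A ∪ S.biUnion ext) L x)) c
    ?_ ?_ ∅ P p q (by simp) hp hq ⟨by simp, fun _ => by simpa using hg⟩
  · simpa using this.2 hB
  · rintro S L L' x y ⟨hS, hR⟩ hL
    refine ⟨hS, fun hL' => (hR ?_).move hL⟩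
    have := dist_nonneg (x := s x) (y := s y)
    linarith
  · rintro x hx S L hxS ⟨hS, hR⟩
    refine ⟨insert_subset hx hS, fun hL => ?_⟩
    have := hop x hx _ L (mem_union_left _ hx) ((h1 x hx).union (Sep.biUnion fun y hy =>
      h2 y (hS hy) x hx (fun e => hxS (e ▸ hy)))) hL (hR (by have := hc x; linarith))
    rwa [biUnion_insert, union_comm (ext x), ← union_assoc]

lemma asm_node {κ t P1 P2 : ℝ} {A B : Finset V} {a b : V} (hκ : 0 ≤ κ) (hP1 : 0 ≤ P1)
    (hP2 : 0 ≤ P2) (ha : a ∈ A) (hb : b ∈ B) (hs : Sep s t A B)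
    (h1 : Asm s κ t P1 A) (h2 : Asm s κ t P2 B) (ext : V → Finset V) (c : V → ℝ)
    (hc : ∀ x, 0 ≤ c x) (s1 : ∀ x ∈ A ∪ B, Sep s t (A ∪ B) (ext x))
    (s2 : ∀ x ∈ A ∪ B, ∀ y ∈ A ∪ B, x ≠ y → Sep s t (ext x) (ext y))
    (hop : ∀ x ∈ A ∪ B, ∀ Q L, x ∈ Q → Sep s t Q (ext x) → L + c x ≤ (κ + 1) * t →
      Good s κ Q L x → Good s κ (Q ∪ ext x) (L + c x) x) (q : V) (hq : q ∈ A)
    (hB : 2 * dist (s a) (s b) + (P1 + P2) + ∑ x ∈ A ∪ B, c x ≤ (κ + 1) * t) :
    Good s κ ((A ∪ B) ∪ (A ∪ B).biUnion ext)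
      (2 * dist (s a) (s b) + (P1 + P2) + ∑ x ∈ A ∪ B, c x) q := by
  have hd : Disjoint A B := disjoint_left.2 fun x hx hx' => (hs x hx x hx').1 rfl
  rw [sum_union hd] at hB ⊢
  have w0 := dist_nonneg (x := s a) (y := s b)
  have cA : 0 ≤ ∑ x ∈ A, c x := sum_nonneg fun x _ => hc x
  have cB : 0 ≤ ∑ x ∈ B, c x := sum_nonneg fun x _ => hc x
  have gB := h2 ext c hc (fun x hx => (s1 x (mem_union_right _ hx)).mono subset_union_right
    Subset.rfl) (fun x hx y hy => s2 x (mem_union_right _ hx) y (mem_union_right _ hy))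
    (fun x hx => hop x (mem_union_right _ hx)) b hb (by linarith)
  set D := B ∪ B.biUnion ext with hD
  have sAD : Sep s t D A := hs.symm.union (Sep.biUnion fun x hx =>
    ((s1 x (mem_union_right _ hx)).mono subset_union_left Subset.rfl).symm)
  have sED : ∀ x ∈ A, Sep s t D (ext x) := fun x hx =>
    ((s1 x (mem_union_left _ hx)).mono subset_union_right Subset.rfl).union
      (Sep.biUnion fun y hy => s2 y (mem_union_right _ hy) x (mem_union_left _ hx)
        (hs x hx y hy).1.symm)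
  have := h1 (fun x => ext x ∪ if x = a then D else ∅)
    (fun x => c x + if x = a then P2 + ∑ x ∈ B, c x + 2 * dist (s a) (s b) else 0)
    ?_ ?_ ?_ ?_ q hq (by
      simp only [sum_add_distrib, sum_ite_eq', ha, if_true]
      linarith)
  · have e : (A ∪ A.biUnion fun x => ext x ∪ if x = a then D else ∅) =
        (A ∪ B) ∪ (A ∪ B).biUnion ext := by
      ext y
      simp only [hD, mem_union, mem_biUnion]
      constructor
      · rintro (h | ⟨x, hx, h | h⟩)
        · exact Or.inl (Or.inl h)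
        · exact Or.inr ⟨x, Or.inl hx, h⟩
        · split_ifs at h
          · simp only [mem_union, mem_biUnion] at h
            rcases h with h | ⟨x, hx, h⟩
            · exact Or.inl (Or.inr h)
            · exact Or.inr ⟨x, Or.inr hx, h⟩
          · simp at h
      · rintro ((h | h) | ⟨x, hx | hx, h⟩)
        · exact Or.inl h
        · exact Or.inr ⟨a, ha, Or.inr (by simp [h])⟩
        · exact Or.inr ⟨x, hx, Or.inl h⟩
        · refine Or.inr ⟨a, ha, Or.inr ?_⟩
          simp only [if_true, mem_union, mem_biUnion]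
          exact Or.inr ⟨x, hx, h⟩
    rw [e] at this
    refine this.move ?_
    simp only [sum_add_distrib, sum_ite_eq', ha, if_true, dist_self]
    linarith
  · intro x
    have := hc x
    split_ifs <;> linarith
  · intro x hx
    refine (Sep.union ((s1 x (mem_union_left _ hx)).mono subset_union_left Subset.rfl).symm
      ?_).symm
    split_ifs
    · exact sAD
    · intro u hu
      simp at hu
  · intro x hx y hy hxy
    have h0 := s2 x (mem_union_left _ hx) y (mem_union_left _ hy) hxy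
    by_cases hxa : x = a
    · have hya : y ≠ a := fun e => hxy (hxa.trans e.symm)
      simp only [hxa, hya, if_true, if_false, union_empty]
      exact (hxa ▸ h0).union (sED y hy)
    · by_cases hya : y = a
      · simp only [hxa, hya, if_true, if_false, union_empty]
        exact ((hya ▸ h0).symm.union (sED x hx)).symm
      · simpa only [hxa, hya, if_false, union_empty] using h0
  · intro x hx Q L hxQ hsep hL hg
    by_cases hxa : x = a
    · subst hxa
      simp only [if_true] at hsep hL ⊢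
      have g1 := hop x (mem_union_left _ hx) Q L hxQ (hsep.mono Subset.rfl subset_union_left)
        (by linarith) hg
      have sq : Sep s t (Q ∪ ext x) D :=
        (hsep.mono Subset.rfl subset_union_right).union (sED x hx).symm
      have := g1.merge gB (disjoint_left.2 fun y hy hy' => (sq y hy y hy').1 rfl)
        (mem_union_left _ hxQ) (mem_union_left _ hb) (fun u hu v hv => by
          have := mul_le_mul_of_nonneg_left (sq u hu v hv).2 hκ
          have := (hs x hx b hb).2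
          linarith)
      rw [union_assoc] at this
      refine this.move ?_
      rw [dist_self]
      linarith
    · simp only [hxa, if_false, union_empty, add_zero] at hsep hL ⊢
      exact hop x (mem_union_left _ hx) Q L hxQ hsep hL hg

lemma phi_nonneg {lev : ℝ → ℕ} {j : ℕ} {l : List ℝ} (h0 : ∀ w ∈ l, 0 ≤ w)
    (h : ∀ w ∈ l, lev w ≤ j) : 0 ≤ Phi lev j l := by
  apply List.sum_nonneg
  intro x hx
  obtain ⟨w, hw, rfl⟩ := List.mem_map.1 hx
  have : (lev w : ℝ) ≤ j := by exact_mod_cast h w hw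
  have := h0 w hw
  have : 0 ≤ (j : ℝ) + 1 - lev w := by linarith
  positivity

lemma phi_succ (lev : ℝ → ℕ) (j : ℕ) (l : List ℝ) :
    Phi lev (j + 1) l = Phi lev j l + 2 * l.sum := by
  induction l with
  | nil => simp [Phi]
  | cons w l ih =>
    simp only [Phi, List.map_cons, List.sum_cons] at ih ⊢
    rw [ih]
    push_cast
    ring

lemma Asm.good {κ t P : ℝ} {A : Finset V} (h : Asm s κ t P A) (hP : P ≤ (κ + 1) * t) {q : V}
    (hq : q ∈ A) : Good s κ A P q := by
  have := h (fun _ => ∅) (fun _ => 0) (fun _ => le_rfl) (fun x _ u _ v hv => by simp at hv)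
    (fun x _ y _ _ u hu => by simp at hu) (fun x _ Q L _ _ _ hg => by simpa using hg) q hq
    (by simpa using hP)
  have e : A.biUnion (fun _ => (∅ : Finset V)) = ∅ := by ext; simp
  simpa [e] using this

lemma asm_all {κ : ℝ} (hκ : 0 ≤ κ) {lev : ℝ → ℕ} (hm : Monotone lev) {θ : ℕ → ℝ}
    (Ok : List ℝ → Prop) (ok1 : ∀ w l r, Ok (w :: (l ++ r)) → Ok l ∧ Ok r ∧ θ (lev w) ≤ w)
    (ok2 : ∀ l j, Ok l → (∀ w ∈ l, lev w ≤ j) → Phi lev j l ≤ (κ + 1) * θ j) (j : ℕ) :
    ∀ {A : Finset V} {l : List ℝ}, SL s A l → Ok l → (∀ w ∈ l, lev w ≤ j) →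
      Asm s κ (θ j) (Phi lev j l) A := by
  induction j using Nat.strong_induction_on with
  | _ j ihj =>
  intro A l h
  induction h with
  | leaf v =>
    intro _ _
    simpa [Phi] using asm_tour (t := θ j) (SL.leaf v) (mem_singleton_self v)
      (good_single (κ := κ) v)
  | @node A B l r a b h1 h2 hd ha hb hc hw ih1 ih2 =>
    intro ok hl
    have hT := SL.node h1 h2 hd ha hb hc hw
    rcases (hl _ List.mem_cons_self).eq_or_lt with hj | hj
    · obtain ⟨o1, o2, o3⟩ := ok1 _ _ _ ok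
      have l1 : ∀ w ∈ l, lev w ≤ j := fun w h => hl w (by simp [h])
      have l2 : ∀ w ∈ r, lev w ≤ j := fun w h => hl w (by simp [h])
      have hs : Sep s (θ j) A B := fun u hu v hv =>
        ⟨fun e => disjoint_left.1 hd hu (e ▸ hv), (hj ▸ o3).trans (hc u hu v hv)⟩
      have e : Phi lev j (dist (s a) (s b) :: (l ++ r)) =
          2 * dist (s a) (s b) + (Phi lev j l + Phi lev j r) := by
        simp [Phi, hj]
      have p1 := phi_nonneg h1.nonneg l1
      have p2 := phi_nonneg h2.nonneg l2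
      rw [e]
      intro ext c hc s1 s2 hop q hq hB
      rcases mem_union.1 hq with hq | hq
      · exact asm_node hκ p1 p2 ha hb hs (ih1 o1 l1) (ih2 o2 l2) ext c hc s1 s2 hop q hq hB
      · rw [union_comm A B, dist_comm, add_comm (Phi lev j l)] at *
        exact asm_node hκ p2 p1 hb ha hs.symm (ih2 o2 l2) (ih1 o1 l1) ext c hc s1 s2 hop q hq hB
    · obtain ⟨i, rfl⟩ : ∃ i, j = i + 1 := ⟨j - 1, by omega⟩
      have hl' : ∀ w ∈ dist (s a) (s b) :: (l ++ r), lev w ≤ i := by
        intro w h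
        rcases List.mem_cons.1 h with rfl | h
        · omega
        · have := hm (hw w h)
          omega
      rw [phi_succ]
      exact asm_tour hT (mem_union_left _ ha)
        ((ihj i (by omega) hT ok hl').good (ok2 _ _ ok hl') (mem_union_left _ ha))

end Pool.Agent.P.MP_709c52_lc
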