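import Mathlib

namespace Pool.Agent.P.MP_709c52_lc

open Finset

variable {V : Type} [DecidableEq V] {N : Type*} [PseudoMetricSpace N] (s : V → N) (κ : ℝ)

/-- A pointer scheme on the cluster `Q`, with exhaustion bound `L` at position `p`. -/
def Good (Q : Finset V) (L : ℝ) (p : V) : Prop :=
  ∃ a : V → Finset V → V, (∀ u ∈ Q, ∀ F : Finset V, (∃ y ∈ F, y ∈ Q) → a u F ∈ F ∧ a u F ∈ Q) ∧
    ∀ F : ℕ → Finset V, Antitone F → ∃ (g : V → ℝ) (z : V), z ∈ Q ∧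
      (∀ i, (∃ y ∈ F i, y ∈ Q) → z ∈ F i) ∧
      (∀ u ∈ Q, ∀ i, (∃ y ∈ F i, y ∈ Q) → g (a u (F i)) + dist (s u) (s (a u (F i))) ≤ g u) ∧
      (∀ u ∈ Q, g z + dist (s u) (s z) ≤ g u) ∧
      (∀ u ∈ Q, g u - g z + dist (s z) (s p) ≤ L) ∧
      (∀ u ∈ Q, ∀ v ∈ Q, g u - g v ≤ κ * dist (s u) (s v))

variable {s κ}

lemma good_single (v : V) : Good s κ {v} 0 v := by
  refine ⟨fun _ _ => v, ?_, fun F _ => ⟨fun _ => 0, v, by simp, ?_, ?_, ?_, ?_, ?_⟩⟩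
  · rintro u hu F ⟨y, hy, hy'⟩
    rw [mem_singleton] at hy'
    subst hy'
    exact ⟨hy, by simp⟩
  · rintro i ⟨y, hy, hy'⟩
    rw [mem_singleton] at hy'
    exact hy' ▸ hy
  · intro u hu i _
    rw [mem_singleton] at hu
    simp [hu]
  · intro u hu
    rw [mem_singleton] at hu
    simp [hu]
  · intro u hu
    simp
  · intro u hu w hw
    rw [mem_singleton] at hu hw
    simp [hu, hw]

lemma Good.move {Q : Finset V} {L L' : ℝ} {p p' : V} (h : Good s κ Q L p)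
    (hL : L + dist (s p) (s p') ≤ L') : Good s κ Q L' p' := by
  obtain ⟨a, ha, hF⟩ := h
  refine ⟨a, ha, fun F hF' => ?_⟩
  obtain ⟨g, z, h1, h2, h3, h4, h5, h6⟩ := hF F hF'
  refine ⟨g, z, h1, h2, h3, h4, fun u hu => ?_, h6⟩
  have := h5 u hu
  have := dist_triangle (s z) (s p) (s p')
  linarith

lemma merge_aux {Q1 Q2 : Finset V} {L1 L2 : ℝ} {a b p : V} (hd : Disjoint Q1 Q2)
    (hb : b ∈ Q2) (hp : dist (s b) (s p) ≤ dist (s a) (s b))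
    (hk : ∀ u ∈ Q1, ∀ v ∈ Q2, L1 + L2 + dist (s a) (s b) ≤ κ * dist (s u) (s v))
    (F : ℕ → Finset V) (a1 a2 a' : V → Finset V → V)
    (ha1 : ∀ u ∈ Q1, ∀ F : Finset V, (∃ y ∈ F, y ∈ Q1) → a1 u F ∈ F ∧ a1 u F ∈ Q1)
    (ha2 : ∀ u ∈ Q2, ∀ F : Finset V, (∃ y ∈ F, y ∈ Q2) → a2 u F ∈ F ∧ a2 u F ∈ Q2)
    (e1 : ∀ u ∈ Q1, ∀ F : Finset V, (∃ y ∈ F, y ∈ Q1) → a' u F = a1 u F)
    (e1' : ∀ u ∈ Q1, ∀ F : Finset V, ¬ (∃ y ∈ F, y ∈ Q1) → a' u F = a2 b F)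
    (e2 : ∀ u ∈ Q2, ∀ F : Finset V, (∃ y ∈ F, y ∈ Q2) → a' u F = a2 u F)
    (g1 g2 : V → ℝ) (z1 z2 : V) (hz1 : z1 ∈ Q1) (hz2 : z2 ∈ Q2)
    (l1 : ∀ i, (∃ y ∈ F i, y ∈ Q1) → z1 ∈ F i) (l2 : ∀ i, (∃ y ∈ F i, y ∈ Q2) → z2 ∈ F i)
    (hz : ∀ i, z1 ∈ F i → z2 ∈ F i)
    (p1 : ∀ u ∈ Q1, ∀ i, (∃ y ∈ F i, y ∈ Q1) →
      g1 (a1 u (F i)) + dist (s u) (s (a1 u (F i))) ≤ g1 u)
    (p2 : ∀ u ∈ Q2, ∀ i, (∃ y ∈ F i, y ∈ Q2) →
      g2 (a2 u (F i)) + dist (s u) (s (a2 u (F i))) ≤ g2 u)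
    (q1 : ∀ u ∈ Q1, g1 z1 + dist (s u) (s z1) ≤ g1 u)
    (q2 : ∀ u ∈ Q2, g2 z2 + dist (s u) (s z2) ≤ g2 u)
    (r1 : ∀ u ∈ Q1, g1 u - g1 z1 + dist (s z1) (s a) ≤ L1)
    (r2 : ∀ u ∈ Q2, g2 u - g2 z2 + dist (s z2) (s b) ≤ L2)
    (k1 : ∀ u ∈ Q1, ∀ v ∈ Q1, g1 u - g1 v ≤ κ * dist (s u) (s v))
    (k2 : ∀ u ∈ Q2, ∀ v ∈ Q2, g2 u - g2 v ≤ κ * dist (s u) (s v)) :
    ∃ (g : V → ℝ) (z : V), z ∈ Q1 ∪ Q2 ∧
      (∀ i, (∃ y ∈ F i, y ∈ Q1 ∪ Q2) → z ∈ F i) ∧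
      (∀ u ∈ Q1 ∪ Q2, ∀ i, (∃ y ∈ F i, y ∈ Q1 ∪ Q2) →
        g (a' u (F i)) + dist (s u) (s (a' u (F i))) ≤ g u) ∧
      (∀ u ∈ Q1 ∪ Q2, g z + dist (s u) (s z) ≤ g u) ∧
      (∀ u ∈ Q1 ∪ Q2, g u - g z + dist (s z) (s p) ≤ L1 + L2 + 2 * dist (s a) (s b)) ∧
      (∀ u ∈ Q1 ∪ Q2, ∀ v ∈ Q1 ∪ Q2, g u - g v ≤ κ * dist (s u) (s v)) := by
  obtain ⟨g, G1, G2⟩ : ∃ g : V → ℝ,
      (∀ u ∈ Q1, g u = g1 u - g1 z1 + dist (s z1) (s b) + g2 b) ∧ (∀ u ∈ Q2, g u = g2 u) := by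
    refine ⟨fun u => if u ∈ Q1 then g1 u - g1 z1 + dist (s z1) (s b) + g2 b else g2 u,
      fun u hu => by simp [hu], fun u hu => ?_⟩
    have : u ∉ Q1 := fun h => disjoint_left.1 hd h hu
    simp [this]
  have hlast : ∀ i, (∃ y ∈ F i, y ∈ Q1 ∪ Q2) → z2 ∈ F i := by
    rintro i ⟨y, hy, hy'⟩
    rcases mem_union.1 hy' with h | h
    · exact hz i (l1 i ⟨y, hy, h⟩)
    · exact l2 i ⟨y, hy, h⟩
  have hL1 : 0 ≤ L1 := by
    have := r1 z1 hz1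
    have := dist_nonneg (x := s z1) (y := s a)
    linarith
  have w0 := dist_nonneg (x := s a) (y := s b)
  refine ⟨g, z2, mem_union_right _ hz2, hlast, ?_, ?_, ?_, ?_⟩
  · intro u hu i hi
    have h2 : ∃ y ∈ F i, y ∈ Q2 := ⟨z2, hlast i hi, hz2⟩
    rcases mem_union.1 hu with hu | hu
    · by_cases h1 : ∃ y ∈ F i, y ∈ Q1
      · rw [e1 u hu _ h1, G1 u hu, G1 _ (ha1 u hu _ h1).2]
        have := p1 u hu i h1
        linarith
      · rw [e1' u hu _ h1, G1 u hu, G2 _ (ha2 b hb _ h2).2]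
        have := p2 b hb i h2
        have := q1 u hu
        have := dist_triangle4 (s u) (s z1) (s b) (s (a2 b (F i)))
        linarith
    · rw [e2 u hu _ h2, G2 u hu, G2 _ (ha2 u hu _ h2).2]
      exact p2 u hu i h2
  · intro u hu
    rw [G2 _ hz2]
    rcases mem_union.1 hu with hu | hu
    · rw [G1 u hu]
      have := q2 b hb
      have := q1 u hu
      have := dist_triangle4 (s u) (s z1) (s b) (s z2)
      linarith
    · rw [G2 u hu]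
      exact q2 u hu
  · intro u hu
    rw [G2 _ hz2]
    have := dist_triangle (s z2) (s b) (s p)
    rcases mem_union.1 hu with hu | hu
    · rw [G1 u hu]
      have := r2 b hb
      have := r1 u hu
      have := dist_triangle (s z1) (s a) (s b)
      linarith
    · rw [G2 u hu]
      have := r2 u hu
      linarith
  · intro u hu v hv
    rcases mem_union.1 hu with hu | hu <;> rcases mem_union.1 hv with hv | hv
    · rw [G1 u hu, G1 v hv]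
      have := k1 u hu v hv
      linarith
    · rw [G1 u hu, G2 v hv]
      have := hk u hu v hv
      have := r1 u hu
      have := r2 b hb
      have := q2 v hv
      have := dist_triangle (s z1) (s a) (s b)
      have := dist_nonneg (x := s z2) (y := s b)
      have := dist_nonneg (x := s v) (y := s z2)
      linarith
    · rw [G2 u hu, G1 v hv, dist_comm (s u)]
      have := hk v hv u hu
      have := r2 u hu
      have := q2 b hb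
      have := q1 v hv
      have := dist_nonneg (x := s z2) (y := s b)
      have := dist_nonneg (x := s b) (y := s z2)
      have := dist_nonneg (x := s v) (y := s z1)
      have := dist_nonneg (x := s z1) (y := s b)
      linarith
    · rw [G2 u hu, G2 v hv]
      exact k2 u hu v hv

lemma Good.merge {Q1 Q2 : Finset V} {L1 L2 : ℝ} {a b : V} (h1 : Good s κ Q1 L1 a)
    (h2 : Good s κ Q2 L2 b) (hd : Disjoint Q1 Q2) (ha : a ∈ Q1) (hb : b ∈ Q2)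
    (hk : ∀ u ∈ Q1, ∀ v ∈ Q2, L1 + L2 + dist (s a) (s b) ≤ κ * dist (s u) (s v)) :
    Good s κ (Q1 ∪ Q2) (L1 + L2 + 2 * dist (s a) (s b)) a := by
  classical
  obtain ⟨a1, ha1, H1⟩ := h1
  obtain ⟨a2, ha2, H2⟩ := h2
  obtain ⟨a', e1, e1', e2, e2'⟩ : ∃ a' : V → Finset V → V,
      (∀ u ∈ Q1, ∀ F : Finset V, (∃ y ∈ F, y ∈ Q1) → a' u F = a1 u F) ∧
      (∀ u ∈ Q1, ∀ F : Finset V, ¬ (∃ y ∈ F, y ∈ Q1) → a' u F = a2 b F) ∧
      (∀ u ∈ Q2, ∀ F : Finset V, (∃ y ∈ F, y ∈ Q2) → a' u F = a2 u F) ∧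
      (∀ u ∈ Q2, ∀ F : Finset V, ¬ (∃ y ∈ F, y ∈ Q2) → a' u F = a1 a F) := by
    refine ⟨fun u F => if u ∈ Q1 then (if ∃ y ∈ F, y ∈ Q1 then a1 u F else a2 b F)
      else (if ∃ y ∈ F, y ∈ Q2 then a2 u F else a1 a F), ?_, ?_, ?_, ?_⟩
    · intro u hu F hF
      simp only [hu, if_true, if_pos hF]
    · intro u hu F hF
      simp only [hu, if_true, if_neg hF]
    · intro u hu F hF
      have : u ∉ Q1 := fun h => disjoint_left.1 hd h hu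
      simp only [this, if_false, if_pos hF]
    · intro u hu F hF
      have : u ∉ Q1 := fun h => disjoint_left.1 hd h hu
      simp only [this, if_false, if_neg hF]
  refine ⟨a', ?_, fun F hF => ?_⟩
  · rintro u hu F ⟨y, hy, hy'⟩
    rcases mem_union.1 hu with hu | hu
    · by_cases h : ∃ y ∈ F, y ∈ Q1
      · rw [e1 u hu F h]
        exact ⟨(ha1 u hu F h).1, mem_union_left _ (ha1 u hu F h).2⟩
      · have h' : ∃ y ∈ F, y ∈ Q2 :=
          ⟨y, hy, (mem_union.1 hy').resolve_left fun h'' => h ⟨y, hy, h''⟩⟩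
        rw [e1' u hu F h]
        exact ⟨(ha2 b hb F h').1, mem_union_right _ (ha2 b hb F h').2⟩
    · by_cases h : ∃ y ∈ F, y ∈ Q2
      · rw [e2 u hu F h]
        exact ⟨(ha2 u hu F h).1, mem_union_right _ (ha2 u hu F h).2⟩
      · have h' : ∃ y ∈ F, y ∈ Q1 :=
          ⟨y, hy, (mem_union.1 hy').resolve_right fun h'' => h ⟨y, hy, h''⟩⟩
        rw [e2' u hu F h]
        exact ⟨(ha1 a ha F h').1, mem_union_left _ (ha1 a ha F h').2⟩
  · obtain ⟨g1, z1, hz1, l1, p1, q1, r1, k1⟩ := H1 F hF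
    obtain ⟨g2, z2, hz2, l2, p2, q2, r2, k2⟩ := H2 F hF
    by_cases hz : ∀ i, z1 ∈ F i → z2 ∈ F i
    · exact merge_aux hd hb (by rw [dist_comm]) hk F a1 a2 a' ha1 ha2 e1 e1' e2 g1 g2 z1 z2 hz1 hz2
        l1 l2 hz p1 p2 q1 q2 r1 r2 k1 k2
    · have hz' : ∀ i, z2 ∈ F i → z1 ∈ F i := by
        push Not at hz
        obtain ⟨j, hj1, hj2⟩ := hz
        intro i hi
        rcases le_total i j with h | h
        · exact hF h hj1
        · exact absurd (hF h hi) hj2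
      have := merge_aux (s := s) (κ := κ) (a := b) (b := a) (p := a) (L1 := L2) (L2 := L1) hd.symm ha
        (by simp) (fun u hu v hv => by
          have := hk v hv u hu
          rw [dist_comm (s b), dist_comm (s u)]
          linarith) F a2 a1 a' ha2 ha1 e2 e2' e1 g2 g1 z2 z1 hz2 hz1 l2 l1 hz' p2 p1 q2 q1 r2 r1 k2 k1
      rw [union_comm Q2 Q1, dist_comm (s b) (s a), add_comm L2 L1] at this
      exact this

end Pool.Agent.P.MP_709c52_lc
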