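import Mathlib

namespace Pool.Agent.P.MP_709c52_lc

open Finset

lemma shift_ind {ι : Type} [DecidableEq ι] (ρ : ι → ℝ) (h0 : ∀ i, 0 ≤ ρ i) {S : ℝ} (hS : 0 < S)
    (I : Finset ι) : ∀ B : ℝ, (∀ i ∈ I, S * ρ i < B + ∑ j ∈ I with ρ j < ρ i, ρ j) →
      B + ∑ j ∈ I, ρ j ≤ B * (1 + 1 / S) ^ I.card ∧
      (I.Nonempty → B + ∑ j ∈ I, ρ j < B * (1 + 1 / S) ^ I.card) := by
  induction I using Finset.induction_on_min_value ρ with
  | empty => simp
  | insert a I ha hmin ih =>
    intro B h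
    have h1 : S * ρ a < B := by
      have := h a (mem_insert_self _ _)
      rw [filter_false_of_mem, sum_empty, add_zero] at this
      · exact this
      · intro x hx
        rcases mem_insert.1 hx with rfl | hx
        · simp
        · exact not_lt.2 (hmin x hx)
    have h2 := (ih (B + ρ a) fun i hi => by
      have := h i (mem_insert_of_mem hi)
      rw [filter_insert] at this
      split_ifs at this
      · rw [sum_insert (by simp [ha])] at this
        linarith
      · have := h0 a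
        linarith).1
    have h3 : B + ρ a < B * (1 + 1 / S) := by
      have : ρ a < B / S := by rw [lt_div_iff₀ hS]; linarith
      have e : B * (1 + 1 / S) = B + B / S := by ring
      linarith
    have h4 : (B + ρ a) * (1 + 1 / S) ^ I.card < B * (1 + 1 / S) * (1 + 1 / S) ^ I.card :=
      mul_lt_mul_of_pos_right h3 (by positivity)
    have : B + ∑ j ∈ insert a I, ρ j < B * (1 + 1 / S) ^ (insert a I).card := by
      rw [sum_insert ha, card_insert_of_notMem ha, pow_succ']
      linarith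
    exact ⟨this.le, fun _ => this⟩

lemma exists_tau {ι : Type} [DecidableEq ι] (ρ : ι → ℝ) (I : Finset ι)
    (h1 : ∀ i ∈ I, 1 ≤ ρ i ∧ ρ i < 2) (h0 : ∀ i, 0 ≤ ρ i) {S : ℝ} (hS : 0 < S) {M : ℕ}
    (hM : I.card ≤ M) (hq : (1 + 1 / S) ^ M ≤ 2) :
    ∃ τ : ℝ, 1 ≤ τ ∧ τ < 2 ∧ ∑ j ∈ I, (if ρ j < τ then 2 * ρ j else ρ j) ≤ S * τ := by
  rcases I.eq_empty_or_nonempty with rfl | hne
  · exact ⟨1, le_rfl, by norm_num, by simpa using hS.le⟩
  by_contra hcon
  push Not at hcon
  have := (shift_ind ρ h0 hS I (∑ j ∈ I, ρ j) fun i hi => by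
    have := hcon _ (h1 i hi).1 (h1 i hi).2
    refine this.trans_le (le_of_eq ?_)
    rw [sum_filter, ← sum_add_distrib]
    refine sum_congr rfl fun j _ => ?_
    split_ifs <;> ring).2 hne
  have h2 : (1 + 1 / S) ^ I.card ≤ 2 :=
    (pow_le_pow_right₀ (by have := one_div_pos.2 hS; linarith) hM).trans hq
  have h3 : 0 ≤ ∑ j ∈ I, ρ j := sum_nonneg fun j _ => h0 j
  nlinarith

lemma exists_shift (ws : List ℝ) (h0 : ∀ w ∈ ws, 0 ≤ w) {S : ℝ} (hS : 0 < S)
    (hq : (1 + 1 / S) ^ ws.length ≤ 2) :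
    ∃ (lev : ℝ → ℕ) (θ : ℕ → ℝ) (x : ℝ → ℝ), Monotone lev ∧ (∀ w, 0 ≤ x w) ∧ (∀ j, 0 ≤ θ j) ∧
      (∀ w ∈ ws, θ (lev w) ≤ w ∧ ∀ j, lev w ≤ j → ((j : ℝ) + 1 - lev w) * w ≤ x w * θ j) ∧
      (ws.map x).sum ≤ S := by
  classical
  set mant : ℝ → ℝ := fun w => max w 0 / (2 : ℝ) ^ Int.log 2 w with hmant
  have m0 : ∀ w, 0 ≤ mant w := fun w => by simp only [hmant]; positivity
  have m1 : ∀ w, 0 < w → 1 ≤ mant w ∧ mant w < 2 ∧ w = mant w * (2 : ℝ) ^ Int.log 2 w := by
    intro w hw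
    have p : (0 : ℝ) < (2 : ℝ) ^ Int.log 2 w := by positivity
    have a1 := Int.zpow_log_le_self (b := 2) (by norm_num) hw
    have a2 := Int.lt_zpow_succ_log_self (b := 2) (by norm_num) w
    push_cast at a1 a2
    rw [zpow_add_one₀ (by norm_num)] at a2
    simp only [hmant, max_eq_left hw.le]
    refine ⟨by rw [le_div_iff₀ p]; linarith, by rw [div_lt_iff₀ p]; linarith, by field_simp⟩
  obtain ⟨τ, t1, t2, ht⟩ := exists_tau (fun i : Fin ws.length => mant ws[i])
    (univ.filter fun i => 0 < ws[i]) (fun i hi => ⟨(m1 _ (mem_filter.1 hi).2).1,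
      (m1 _ (mem_filter.1 hi).2).2.1⟩) (fun i => m0 _) hS (M := ws.length)
      ((card_filter_le _ _).trans (by simp)) hq
  have τ0 : 0 < τ := by linarith
  obtain ⟨e, he⟩ : ∃ e : ℝ → ℤ, ∀ w, 0 < w → τ * 2 ^ e w ≤ w ∧ w < τ * 2 ^ (e w + 1) ∧
      w / (τ * 2 ^ e w) = (if mant w < τ then 2 * mant w else mant w) / τ := by
    refine ⟨fun w => if mant w < τ then Int.log 2 w - 1 else Int.log 2 w, fun w hw => ?_⟩
    obtain ⟨a1, a2, a3⟩ := m1 w hw
    have p : (0 : ℝ) < (2 : ℝ) ^ Int.log 2 w := by positivity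
    dsimp only
    generalize mant w = μ at *
    generalize Int.log 2 w = k at *
    subst a3
    by_cases h : μ < τ
    · simp only [h, if_true, sub_add_cancel]
      rw [zpow_sub_one₀ (by norm_num)]
      refine ⟨by nlinarith, by nlinarith, by field_simp⟩
    · simp only [h, if_false]
      rw [zpow_add_one₀ (by norm_num)]
      refine ⟨by nlinarith, by nlinarith, by field_simp⟩
  obtain ⟨E, hE⟩ : ∃ E : ℤ, ∀ w ∈ ws, E ≤ e w := by
    obtain ⟨E, hE⟩ := (ws.map e).toFinset.bddBelow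
    exact ⟨E, fun w hw => hE (by simpa using ⟨w, hw, rfl⟩)⟩
  refine ⟨fun w => if 0 < w then (e w - E + 1).toNat else 0,
    fun j => if j = 0 then 0 else τ * 2 ^ (E + j - 1), fun w => if 0 < w then w / (τ * 2 ^ e w) else 0,
    ?_, ?_, ?_, ?_, ?_⟩
  · intro v w hvw
    by_cases hv : 0 < v
    · have hw : 0 < w := hv.trans_le hvw
      simp only [hv, hw, if_true]
      have : e v < e w + 1 := by
        have := ((he v hv).1.trans hvw).trans_lt (he w hw).2.1
        exact (zpow_lt_zpow_iff_right₀ (by norm_num)).1 (lt_of_mul_lt_mul_left this τ0.le)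
      omega
    · simp [hv]
  · intro w
    dsimp only
    split_ifs <;> positivity
  · intro j
    dsimp only
    split_ifs <;> positivity
  · intro w hw
    by_cases h : 0 < w
    · simp only [h, if_true]
      obtain ⟨n, hn⟩ : ∃ n : ℕ, e w = E + n := ⟨(e w - E).toNat, by have := hE w hw; omega⟩
      have e1 : (e w - E + 1).toNat = n + 1 := by omega
      rw [e1]
      refine ⟨?_, fun j hj => ?_⟩
      · have : E + ((n + 1 : ℕ) : ℤ) - 1 = e w := by omega
        rw [if_neg (by omega), this]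
        exact (he w h).1
      · obtain ⟨i, rfl⟩ : ∃ i, j = n + 1 + i := ⟨j - (n + 1), by omega⟩
        have : E + ((n + 1 + i : ℕ) : ℤ) - 1 = e w + i := by omega
        rw [if_neg (by omega), this, zpow_add₀ (by norm_num), zpow_natCast]
        have e2 : w / (τ * 2 ^ e w) * (τ * (2 ^ e w * 2 ^ i)) = 2 ^ i * w := by field_simp
        rw [e2]
        have : (i : ℝ) + 1 ≤ 2 ^ i := by exact_mod_cast Nat.lt_two_pow_self
        push_cast
        nlinarith
    · have : w = 0 := le_antisymm (not_lt.1 h) (h0 w hw)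
      simp [this]
  · rw [← Fin.sum_univ_fun_getElem]
    rw [sum_filter, ← div_le_iff₀ τ0, sum_div] at ht
    refine le_of_eq_of_le (sum_congr rfl fun i _ => ?_) ht
    simp only [Fin.getElem_fin]
    by_cases h : 0 < ws[i.1]
    · simp only [h, if_true]
      exact (he _ h).2.2
    · simp [h]

end Pool.Agent.P.MP_709c52_lc
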