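import Pool.Agent.P.MP_709c52_lc.Asm
import Pool.Agent.P.MP_709c52_lc.Shift

namespace Pool.Agent.P.MP_709c52_lc

open Finset

variable {V : Type} [DecidableEq V] [Fintype V] [Nonempty V] {N : Type*} [PseudoMetricSpace N]
  (s : V → N)

lemma good_univ {S : ℝ} (hS : 1 / 2 ≤ S) (hq : (1 + 1 / S) ^ (Fintype.card V - 1) ≤ 2) :
    ∃ L p, Good s (2 * S - 1) univ L p := by
  obtain ⟨ws, hT⟩ := exists_SL (s := s)
  have hc := hT.card
  rw [card_univ] at hc
  obtain ⟨lev, θ, x, hm, x0, θ0, h1, h2⟩ := exists_shift ws hT.nonneg (S := S) (by linarith)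
    (by rwa [hc, Nat.add_sub_cancel] at hq)
  obtain ⟨j, hj⟩ : ∃ j, ∀ w ∈ ws, lev w ≤ j := by
    obtain ⟨j, hj⟩ := (ws.map lev).toFinset.bddAbove
    exact ⟨j, fun w hw => hj (by simpa using ⟨w, hw, rfl⟩)⟩
  have xs : ∀ l : List ℝ, 0 ≤ (l.map x).sum := fun l => List.sum_nonneg fun y hy => by
    obtain ⟨w, _, rfl⟩ := List.mem_map.1 hy
    exact x0 w
  have ok2 : ∀ (l : List ℝ) (j : ℕ), ((∀ w ∈ l, w ∈ ws) ∧ (l.map x).sum ≤ S) →
      (∀ w ∈ l, lev w ≤ j) → Phi lev j l ≤ (2 * S - 1 + 1) * θ j := by
    rintro l j ⟨o1, o2⟩ hl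
    have : Phi lev j l ≤ (l.map fun w => x w * (2 * θ j)).sum :=
      List.sum_le_sum fun w hw => by
        have := (h1 w (o1 w hw)).2 j (hl w hw)
        linarith
    rw [List.sum_map_mul_right] at this
    have := θ0 j
    nlinarith
  obtain ⟨p⟩ := ‹Nonempty V›
  refine ⟨_, p, (asm_all (by linarith) hm (fun l => (∀ w ∈ l, w ∈ ws) ∧ (l.map x).sum ≤ S) ?_ ok2 j
    hT ⟨fun _ h => h, h2⟩ hj).good (ok2 _ _ ⟨fun _ h => h, h2⟩ hj) (mem_univ p)⟩
  rintro w l r ⟨o1, o2⟩
  simp only [List.map_cons, List.map_append, List.sum_cons, List.sum_append] at o2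
  have := xs l
  have := xs r
  have := x0 w
  exact ⟨⟨fun v hv => o1 v (by simp [hv]), by linarith⟩, ⟨fun v hv => o1 v (by simp [hv]),
    by linarith⟩, (h1 w (o1 w (by simp))).1⟩

omit [Nonempty V] in
lemma sum_comp_eq {n : ℕ} (c : Fin n → V) (g : V → ℝ) :
    ∑ i, g (c i) = ∑ v, ((univ.filter fun i => c i = v).card : ℝ) * g v := by
  rw [← sum_fiberwise univ c]
  refine sum_congr rfl fun v _ => ?_
  rw [sum_congr rfl fun i hi => by rw [(mem_filter.1 hi).2], sum_const, nsmul_eq_mul]

lemma online {κ L : ℝ} {p : V} (hκ : 0 ≤ κ) (h : Good s κ univ L p) (k : ℕ) :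
    ∃ A : List N → N → V, ∀ (n : ℕ) (r : Fin n → N), n ≤ k * Fintype.card V →
      (∀ v, (univ.filter fun i : Fin n => A ((List.ofFn r).take i) (r i) = v).card ≤ k) ∧
      ∀ o : Fin n → V, (∀ v, (univ.filter fun i => o i = v).card ≤ k) →
        ∑ i : Fin n, dist (s (A ((List.ofFn r).take i) (r i))) (r i) ≤
          (2 * κ + 1) * ∑ i, dist (s (o i)) (r i) := by
  obtain ⟨a, ha, hF⟩ := h
  have hnear : ∀ x : N, ∃ u : V, ∀ v, dist (s u) x ≤ dist (s v) x := fun x => by
    obtain ⟨u, -, hu⟩ := exists_min_image univ (fun v => dist (s v) x) univ_nonempty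
    exact ⟨u, fun v => hu v (mem_univ v)⟩
  choose near hnear using hnear
  set step : (V → ℕ) → N → V → ℕ := fun ld x =>
    ld + Pi.single (a (near x) (univ.filter fun v => ld v < k)) 1 with hstep
  refine ⟨fun l x => a (near x) (univ.filter fun v => l.foldl step 0 v < k), fun n r hn => ?_⟩
  set ld : ℕ → V → ℕ := fun i => ((List.ofFn r).take i).foldl step 0 with hld
  set c : Fin n → V := fun i => a (near (r i)) (univ.filter fun v => ld i v < k) with hc
  change (∀ v, (univ.filter fun i => c i = v).card ≤ k) ∧ ∀ o : Fin n → V,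
    (∀ v, (univ.filter fun i => o i = v).card ≤ k) →
      ∑ i : Fin n, dist (s (c i)) (r i) ≤ (2 * κ + 1) * ∑ i, dist (s (o i)) (r i)
  have hs : ∀ i : Fin n, ld (i + 1) = ld i + Pi.single (c i) 1 := by
    intro i
    have : (List.ofFn r).take (i + 1) = (List.ofFn r).take i ++ [r i] := by
      rw [List.take_add_one, List.getElem?_eq_getElem (by simp)]
      simp
    simp only [hld, this, List.foldl_append, List.foldl_cons, List.foldl_nil]
    rfl
  have hfree : ∀ i : Fin n, ∑ v, ld i v = i → ∃ y ∈ univ.filter fun v => ld i v < k,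
      y ∈ (univ : Finset V) := by
    intro i hi
    by_contra hcon
    have : ∑ _v : V, k ≤ ∑ v, ld i v := sum_le_sum fun v _ => by
      by_contra h'
      exact hcon ⟨v, by simpa using h', mem_univ v⟩
    rw [hi, sum_const, card_univ, smul_eq_mul, mul_comm] at this
    have := i.2
    omega
  have inv : ∀ i, i ≤ n → ∑ v, ld i v = i ∧ (∀ v, ld i v ≤ k) ∧
      ∀ v, ld i v = (univ.filter fun j : Fin n => j.1 < i ∧ c j = v).card := by
    intro i
    induction i with
    | zero => intro _; simp [hld]
    | succ i ih =>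
      intro hi
      obtain ⟨h1, h2, h3⟩ := ih (by omega)
      have e := hs ⟨i, hi⟩
      have hin := (mem_filter.1 (ha (near (r ⟨i, hi⟩)) (mem_univ _) _ (hfree ⟨i, hi⟩ h1)).1).2
      change ld i (c ⟨i, hi⟩) < k at hin
      dsimp only at e
      rw [e]
      refine ⟨by simp [sum_add_distrib, h1], fun v => ?_, fun v => ?_⟩
      · by_cases hv : v = c ⟨i, hi⟩
        · subst hv
          simpa using hin
        · simpa [hv] using h2 v
      · by_cases hv : v = c ⟨i, hi⟩
        · have : (univ.filter fun j : Fin n => j.1 < i + 1 ∧ c j = v) =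
              insert ⟨i, hi⟩ (univ.filter fun j : Fin n => j.1 < i ∧ c j = v) := by
            ext j
            simp only [mem_filter, mem_univ, true_and, mem_insert]
            constructor
            · rintro ⟨h, h'⟩
              rcases Nat.lt_succ_iff_lt_or_eq.1 h with h | h
              · exact Or.inr ⟨h, h'⟩
              · exact Or.inl (Fin.ext h)
            · rintro (rfl | ⟨h, h'⟩)
              · exact ⟨by simp, hv.symm⟩
              · exact ⟨by omega, h'⟩
          rw [this, card_insert_of_notMem (by simp), ← h3, hv]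
          simp
        · have : (univ.filter fun j : Fin n => j.1 < i + 1 ∧ c j = v) =
              (univ.filter fun j : Fin n => j.1 < i ∧ c j = v) := by
            refine filter_congr fun j _ => ⟨fun ⟨h, h'⟩ => ⟨?_, h'⟩, fun ⟨h, h'⟩ => ⟨by omega, h'⟩⟩
            rcases Nat.lt_succ_iff_lt_or_eq.1 h with h | h
            · exact h
            · exact absurd (h'.symm.trans (congrArg c (Fin.ext h))) hv
          rw [this, ← h3]
          simp [hv]
  have hfin : ∀ v, ld n v = (univ.filter fun i => c i = v).card := fun v => by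
    rw [(inv n le_rfl).2.2 v]
    simp
  have mono : ∀ i j, i ≤ j → j ≤ n → ∀ v, ld i v ≤ ld j v := by
    intro i j hij hj v
    rw [(inv i (hij.trans hj)).2.2, (inv j hj).2.2]
    exact card_le_card fun x hx => by
      simp only [mem_filter, mem_univ, true_and] at hx ⊢
      exact ⟨by omega, hx.2⟩
  refine ⟨fun v => hfin v ▸ (inv n le_rfl).2.1 v, fun o ho => ?_⟩
  have hg : ∀ v0 : V, ∃ g : V → ℝ, (∀ v, 0 ≤ g v) ∧ (ld n v0 < k → g v0 = 0) ∧
      (∀ i, g (c i) + dist (s (near (r i))) (s (c i)) ≤ g (near (r i))) ∧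
      ∀ u v, g u - g v ≤ κ * dist (s u) (s v) := by
    intro v0
    obtain ⟨g, z, -, h2, h3, h4, -, h6⟩ := hF (fun i => if i < n then univ.filter fun v => ld i v < k
      else if ld n v0 < k then {v0} else ∅) (by
        intro i j hij x hx
        dsimp only at hx ⊢
        by_cases hj : j < n
        · rw [if_pos hj, mem_filter] at hx
          rw [if_pos (by omega), mem_filter]
          exact ⟨hx.1, (mono i j hij hj.le x).trans_lt hx.2⟩
        · rw [if_neg hj] at hx
          by_cases hi : i < n
          · rw [if_pos hi, mem_filter]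
            split_ifs at hx with h
            · rw [mem_singleton.1 hx]
              exact ⟨mem_univ _, (mono i n hi.le le_rfl v0).trans_lt h⟩
            · simp at hx
          · rwa [if_neg hi])
    refine ⟨fun v => g v - g z, fun v => ?_, fun h => ?_, fun i => ?_, fun u v => ?_⟩
    · have := h4 v (mem_univ v)
      have := dist_nonneg (x := s v) (y := s z)
      linarith
    · have := h2 n ⟨v0, by simp [h], mem_univ _⟩
      simp only [lt_irrefl, if_false, h, if_true, mem_singleton] at this
      simp [this]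
    · have := h3 (near (r i)) (mem_univ _) i
        (by simpa only [i.2, if_true] using hfree i (inv i i.2.le).1)
      simp only [i.2, if_true] at this
      change g (c i) + dist (s (near (r i))) (s (c i)) ≤ _ at this
      linarith
    · have := h6 u (mem_univ _) v (mem_univ _)
      linarith
  choose G g0 g1 g2 g3 using hg
  have hmin : ∀ u : V, ∃ w : V, ∀ v, G w u ≤ G v u := fun u => by
    obtain ⟨w, -, hw⟩ := exists_min_image univ (fun v => G v u) univ_nonempty
    exact ⟨w, fun v => hw v (mem_univ v)⟩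
  choose mn hmn using hmin
  have key : ∀ i, dist (s (c i)) (r i) + G (mn (c i)) (c i) ≤
      (2 * κ + 1) * dist (s (o i)) (r i) + G (mn (o i)) (o i) := by
    intro i
    have t1 := hmn (c i) (mn (o i))
    have t2 := g2 (mn (o i)) i
    have t3 := g3 (mn (o i)) (near (r i)) (o i)
    have t4 := hnear (r i) (o i)
    have t5 := dist_triangle_left (s (c i)) (r i) (s (near (r i)))
    have t6 := dist_triangle_right (s (near (r i))) (s (o i)) (r i)
    have t7 : κ * dist (s (near (r i))) (s (o i)) ≤ κ * (2 * dist (s (o i)) (r i)) :=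
      mul_le_mul_of_nonneg_left (by linarith) hκ
    linarith
  have := sum_le_sum fun i (_ : i ∈ univ) => key i
  rw [sum_add_distrib, sum_add_distrib, ← mul_sum, sum_comp_eq c fun v => G (mn v) v,
    sum_comp_eq o fun v => G (mn v) v] at this
  have h' : ∑ v, ((univ.filter fun i => o i = v).card : ℝ) * G (mn v) v ≤
      ∑ v, ((univ.filter fun i => c i = v).card : ℝ) * G (mn v) v := sum_le_sum fun v _ => by
    by_cases hv : ld n v < k
    · have : G (mn v) v = 0 := le_antisymm ((hmn v v).trans (g1 v hv).le) (g0 _ _)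
      simp [this]
    · refine mul_le_mul_of_nonneg_right ?_ (g0 _ _)
      have := ho v
      rw [← hfin v]
      exact_mod_cast (by omega)
  linarith

end Pool.Agent.P.MP_709c52_lc
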