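import Pool.Agent.P.MP_709c52_lc.Good

namespace Pool.Agent.P.MP_709c52_lc

open Finset

variable {V : Type} [DecidableEq V] {N : Type*} [PseudoMetricSpace N] (s : V → N)

/-- Single linkage merge trees: vertex set and list of the weights of the links. -/
inductive SL : Finset V → List ℝ → Prop
  | leaf (v : V) : SL {v} []
  | node {A B : Finset V} {l r : List ℝ} {a b : V} : SL A l → SL B r → Disjoint A B → a ∈ A →
      b ∈ B → (∀ u ∈ A, ∀ v ∈ B, dist (s a) (s b) ≤ dist (s u) (s v)) →
      (∀ w ∈ l ++ r, w ≤ dist (s a) (s b)) → SL (A ∪ B) (dist (s a) (s b) :: (l ++ r))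

variable {s}

lemma SL.card {A : Finset V} {l : List ℝ} (h : SL s A l) : A.card = l.length + 1 := by
  induction h with
  | leaf v => simp
  | node _ _ hd _ _ _ _ ih1 ih2 =>
    rw [card_union_of_disjoint hd, ih1, ih2]
    simp only [List.length_cons, List.length_append]
    ring

lemma SL.nonneg {A : Finset V} {l : List ℝ} (h : SL s A l) : ∀ w ∈ l, 0 ≤ w := by
  induction h with
  | leaf v => simp
  | node _ _ _ _ _ _ _ ih1 ih2 =>
    intro w hw
    simp only [List.mem_cons, List.mem_append] at hw
    rcases hw with rfl | h | h
    · exact dist_nonneg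
    · exact ih1 w h
    · exact ih2 w h

lemma SL.nonempty {A : Finset V} {l : List ℝ} (h : SL s A l) : A.Nonempty := by
  rw [← card_pos, h.card]
  omega

lemma exists_SL [Fintype V] [Nonempty V] : ∃ l, SL s univ l := by
  classical
  have key : ∀ n : ℕ, ∀ (T : V → Finset V) (W : V → List ℝ),
      (univ.filter fun p : V × V => p.2 ∉ T p.1).card = n → (∀ v, SL s (T v) (W v)) →
      (∀ v, v ∈ T v) → (∀ v, ∀ u ∈ T v, T u = T v ∧ W u = W v) →
      (∀ v, ∀ w ∈ W v, ∀ a b, b ∉ T a → w ≤ dist (s a) (s b)) → ∃ l, SL s univ l := by
    intro n
    induction n using Nat.strong_induction_on with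
    | _ n ih =>
    intro T W hn h1 h2 h3 h4
    by_cases hne : (univ.filter fun p : V × V => p.2 ∉ T p.1).Nonempty
    · obtain ⟨⟨a, b⟩, hab, hmin⟩ := exists_min_image _ (fun p : V × V => dist (s p.1) (s p.2)) hne
      simp only [mem_filter, mem_univ, true_and, Prod.forall] at hab hmin
      have hd : Disjoint (T a) (T b) := by
        rw [disjoint_left]
        intro x hx hx'
        apply hab
        rw [← (h3 a x hx).1, (h3 b x hx').1]
        exact h2 b
      have hnew : SL s (T a ∪ T b) (dist (s a) (s b) :: (W a ++ W b)) := by
        refine SL.node (h1 a) (h1 b) hd (h2 a) (h2 b) (fun u hu v hv => hmin u v ?_) ?_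
        · rw [(h3 a u hu).1]
          exact fun h => disjoint_left.1 hd h hv
        · intro w hw
          rcases List.mem_append.1 hw with h | h
          · exact h4 a w h a b hab
          · exact h4 b w h a b hab
      have hsub : ∀ v, T v ⊆ (if v ∈ T a ∪ T b then T a ∪ T b else T v) := by
        intro v
        split_ifs with h
        · rcases mem_union.1 h with h | h
          · rw [(h3 a v h).1]; exact subset_union_left
          · rw [(h3 b v h).1]; exact subset_union_right
        · exact Subset.rfl
      refine ih _ ?_ (fun v => if v ∈ T a ∪ T b then T a ∪ T b else T v)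
        (fun v => if v ∈ T a ∪ T b then dist (s a) (s b) :: (W a ++ W b) else W v) rfl ?_ ?_ ?_ ?_
      · rw [← hn]
        apply card_lt_card
        refine ⟨fun p hp => ?_, fun h => ?_⟩
        · simp only [mem_filter, mem_univ, true_and] at hp ⊢
          exact fun h => hp (hsub _ h)
        · have := @h (a, b) (by simpa using hab)
          simp [h2 a, h2 b] at this
      · intro v
        by_cases h : v ∈ T a ∪ T b
        · simp only [h, if_true]; exact hnew
        · simp only [h, if_false]; exact h1 v
      · exact fun v => hsub v (h2 v)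
      · intro v u hu
        by_cases h : v ∈ T a ∪ T b
        · simp only [h, if_true] at hu ⊢
          simp only [hu, if_true, and_self]
        · simp only [h, if_false] at hu ⊢
          have hu' : u ∉ T a ∪ T b := by
            intro h'
            apply h
            have hv : v ∈ T u := by rw [(h3 v u hu).1]; exact h2 v
            rcases mem_union.1 h' with h' | h'
            · rw [(h3 a u h').1] at hv; exact mem_union_left _ hv
            · rw [(h3 b u h').1] at hv; exact mem_union_right _ hv
          simp only [hu', if_false]
          exact h3 v u hu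
      · intro v w hw x y hxy
        have hxy' : y ∉ T x := fun h => hxy (hsub x h)
        by_cases h : v ∈ T a ∪ T b
        · simp only [h, if_true, List.mem_cons, List.mem_append] at hw
          rcases hw with rfl | hw | hw
          · exact hmin x y hxy'
          · exact h4 a w hw x y hxy'
          · exact h4 b w hw x y hxy'
        · simp only [h, if_false] at hw
          exact h4 v w hw x y hxy'
    · obtain ⟨v⟩ := ‹Nonempty V›
      have : T v = univ := by
        ext u
        simp only [mem_univ, iff_true]
        by_contra h
        exact hne ⟨(v, u), by simpa using h⟩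
      exact ⟨W v, this ▸ h1 v⟩
  refine key _ (fun v => {v}) (fun _ => []) rfl (fun v => SL.leaf v) (by simp) ?_ (by simp)
  intro v u hu
  rw [mem_singleton] at hu
  simp [hu]

/-- An Euler tour of the tree from `p` to `q`, performing an operation at every vertex. -/
lemma SL.tour {A : Finset V} {l : List ℝ} (h : SL s A l) :
    ∀ (R : Finset V → ℝ → V → Prop) (c : V → ℝ),
      (∀ S L L' x y, R S L x → L + dist (s x) (s y) ≤ L' → R S L' y) →
      (∀ x ∈ A, ∀ S L, x ∉ S → R S L x → R (insert x S) (L + c x) x) →
      ∀ S L p q, Disjoint S A → p ∈ A → q ∈ A → R S L p →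
        R (S ∪ A) (L + 2 * l.sum + ∑ x ∈ A, c x) q := by
  induction h with
  | leaf v =>
    intro R c _ hop S L p q hS hp hq hR
    rw [mem_singleton] at hp hq
    subst hp hq
    have := hop q (by simp) S L (by simpa using hS) hR
    simpa [union_comm] using this
  | @node A B l r a b h1 h2 hd ha hb _ _ ih1 ih2 =>
    have main : ∀ {A B : Finset V} {l r : List ℝ} {a b : V}, Disjoint A B → a ∈ A → b ∈ B →
        (∀ (R : Finset V → ℝ → V → Prop) (c : V → ℝ),
          (∀ S L L' x y, R S L x → L + dist (s x) (s y) ≤ L' → R S L' y) →
          (∀ x ∈ A, ∀ S L, x ∉ S → R S L x → R (insert x S) (L + c x) x) →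
          ∀ S L p q, Disjoint S A → p ∈ A → q ∈ A → R S L p →
            R (S ∪ A) (L + 2 * l.sum + ∑ x ∈ A, c x) q) →
        (∀ (R : Finset V → ℝ → V → Prop) (c : V → ℝ),
          (∀ S L L' x y, R S L x → L + dist (s x) (s y) ≤ L' → R S L' y) →
          (∀ x ∈ B, ∀ S L, x ∉ S → R S L x → R (insert x S) (L + c x) x) →
          ∀ S L p q, Disjoint S B → p ∈ B → q ∈ B → R S L p →
            R (S ∪ B) (L + 2 * r.sum + ∑ x ∈ B, c x) q) →
        ∀ (R : Finset V → ℝ → V → Prop) (c : V → ℝ),
          (∀ S L L' x y, R S L x → L + dist (s x) (s y) ≤ L' → R S L' y) →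
          (∀ x ∈ A ∪ B, ∀ S L, x ∉ S → R S L x → R (insert x S) (L + c x) x) →
          ∀ S L p q, Disjoint S (A ∪ B) → p ∈ A → q ∈ A ∪ B → R S L p →
            R (S ∪ (A ∪ B))
              (L + 2 * (dist (s a) (s b) + (l.sum + r.sum)) + ∑ x ∈ A ∪ B, c x) q := by
      intro A B l r a b hd ha hb ih1 ih2 R c hmv hop S L p q hS hp hq hR
      rw [disjoint_union_right] at hS
      rw [sum_union hd]
      have w0 := dist_nonneg (x := s a) (y := s b)
      rcases mem_union.1 hq with hq | hq
      · have haS : a ∉ S := fun h => disjoint_left.1 hS.1 h ha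
        have := ih1 (fun S' L x => R (S ∪ S' ∪ if a ∈ S' then B else ∅) L x ∧ S' ⊆ A)
          (fun x => c x + if x = a then 2 * dist (s a) (s b) + 2 * r.sum + ∑ x ∈ B, c x else 0)
          (fun S' L L' x y h h' => ⟨hmv _ _ _ _ _ h.1 h', h.2⟩) ?_ ∅ L p q (by simp) hp hq
          (by simpa using hR)
        · have h' := this.1
          simp only [empty_union, ha, if_true, sum_add_distrib, sum_ite_eq', union_assoc] at h'
          refine hmv _ _ _ _ _ h' ?_
          rw [dist_self]
          linarith
        · rintro x hx S' L hxS ⟨hR, hS'⟩
          refine ⟨?_, insert_subset hx hS'⟩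
          have hxS0 : x ∉ S := fun h => disjoint_left.1 hS.1 h hx
          have hxB : x ∉ B := fun h => disjoint_left.1 hd hx h
          by_cases hxa : x = a
          · subst hxa
            simp only [hxS, if_false, union_empty, mem_insert_self, if_true] at hR ⊢
            have h1 := hop x (mem_union_left _ hx) _ _ (by simp [hxS, hxS0]) hR
            have h2 := hmv _ _ _ _ b h1 le_rfl
            have h3 := ih2 R c hmv (fun y hy => hop y (mem_union_right _ hy)) _ _ b b
              (by
                rw [disjoint_insert_left, disjoint_union_left]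
                exact ⟨hxB, hS.2, hd.mono_left hS'⟩) hb hb h2
            have e : insert x (S ∪ S') = S ∪ insert x S' := by simp
            rw [e] at h3
            refine hmv _ _ _ _ _ h3 ?_
            rw [dist_comm (s b)]
            linarith
          · have e1 : (a ∈ insert x S') ↔ a ∈ S' := by
              simp [Ne.symm hxa]
            have h1 := hop x (mem_union_left _ hx) _ _ (by
              split_ifs <;> simp [hxS, hxS0, hxB]) hR
            have e : insert x (S ∪ S' ∪ if a ∈ S' then B else ∅) =
                S ∪ insert x S' ∪ if a ∈ insert x S' then B else ∅ := by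
              simp only [e1]
              simp
            rw [e] at h1
            simpa [hxa] using h1
      · have h1 := ih1 R c hmv (fun y hy => hop y (mem_union_left _ hy)) S L p a hS.1 hp ha hR
        have h2 := hmv _ _ _ _ b h1 le_rfl
        have h3 := ih2 R c hmv (fun y hy => hop y (mem_union_right _ hy)) _ _ b q
          (by rw [disjoint_union_left]; exact ⟨hS.2, hd⟩) hb hq h2
        rw [union_assoc] at h3
        refine hmv _ _ _ _ _ h3 ?_
        rw [dist_self]
        linarith
    intro R c hmv hop S L p q hS hp hq hR
    simp only [List.sum_cons, List.sum_append]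
    rcases mem_union.1 hp with hp | hp
    · exact main hd ha hb ih1 ih2 R c hmv hop S L p q hS hp hq hR
    · have := main hd.symm hb ha ih2 ih1 R c hmv (by rwa [union_comm]) S L p q
        (by rwa [union_comm]) hp (by rwa [union_comm]) hR
      rwa [union_comm B A, dist_comm (s b), add_comm r.sum] at this

end Pool.Agent.P.MP_709c52_lc
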